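import Pool.Agent.ChamberIso.Main
/-!
MP_90133a_co, Q1, negated form: the edge-isoperimetric inequality for chamber graphs of
general-position arrangements fails in dimension `3`.

The definitions (`GeneralPosition`, `chambers`, `chamberGraph`, `edgeBoundary`,
`IsoperimetricInequality`) are in `Pool/Agent/ChamberIso/Defs.lean`. The arrangement consists of
24 planes; it has 2325 chambers, the set `S` has
`1160 = C(19,0) + C(19,1) + C(19,2) + C(19,3)` chambers and at most 187 boundary
edges, whereas `C(19,0) + C(19,1) + C(19,2) = 191`.
-/
set_option autoImplicit false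

namespace Pool.Agent.Results.MP_90133a_co.SpaceCounterexample

open Pool.Agent.ChamberIso

/-- There is a finite arrangement of planes in general position in `ℝ^3` for which the
edge-isoperimetric inequality of the question fails. -/
theorem result :
    ∃ 𝓗 : Finset (AffineSubspace ℝ (Fin 3 → ℝ)),
      GeneralPosition 3 𝓗 ∧ ¬ IsoperimetricInequality 3 𝓗 := by
  refine ⟨HH, genPos_HH, fun h => ?_⟩
  have h1 := h SS 19 (by norm_num) ?_ ?_
  · have h2 : (∑ i ∈ Finset.range 3, Nat.choose 19 i) = 191 := by decide
    rw [h2] at h1
    have h3 := h1.trans encard_boundary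
    exact absurd h3 (by exact_mod_cast (by norm_num : ¬ (191 : ℕ) ≤ 187))
  · rw [encard_SS, encard_chambers]
    exact_mod_cast (by norm_num : (2 * 1160 : ℕ) ≤ 2325)
  · rw [encard_SS]
    have h : (∑ i ∈ Finset.range (3 + 1), Nat.choose 19 i) = 1160 := by decide
    rw [h]
    rfl

end Pool.Agent.Results.MP_90133a_co.SpaceCounterexample
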